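import Mathlib

/-!
# Additive MRD codes without field spread sets

For every finite field `K` whose order is a square there is an additive MRD code in `M_3(K)` with
minimum distance `2` which contains no code equivalent to the field spread set of the cubic
extension of `K`.

Let `|K| = q₀²`, let `L` be the cubic extension of `K`, `α ∈ L \ K`, and let `c ∈ L` be such that
`c s^(q₀³-1)` is not in `K + K α` for all `s ≠ 0` (such a `c` exists by counting). The code consists
of the matrices with the rows `r, s, α r + c s^(q₀³)` (`r, s ∈ L`, where `L` is identified with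
`K³`). If `X` and `ω X` belong to the code for some `ω ∈ K` with `ω^q₀ ≠ ω`, then `s = 0`, so that
`X` is singular. A code which is equivalent to the field spread set contains an invertible matrix
together with its multiples by scalars.
-/

namespace Pool.Agent.Results.MP_bf8bcd_co.NoFieldSpreadSet

open Matrix Module

/-! ### The definitions of the problem -/

/-- The code `C` has minimum (rank) distance `d`. -/
def MinDist {K : Type} [Field K] {n : ℕ} (C : Set (Matrix (Fin n) (Fin n) K)) (d : ℕ) : Prop :=
  (∀ X ∈ C, ∀ Y ∈ C, X ≠ Y → d ≤ (X - Y).rank) ∧ ∃ X ∈ C, ∃ Y ∈ C, X ≠ Y ∧ (X - Y).rank = d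

/-- `C` is a maximum rank distance code with minimum distance `d`. -/
def IsMRD {K : Type} [Field K] {n : ℕ} (C : Set (Matrix (Fin n) (Fin n) K)) (d : ℕ) : Prop :=
  MinDist C d ∧ C.ncard = Nat.card K ^ (n * (n - d + 1))

/-- Equivalence of codes. -/
def EquivalentCodes {K : Type} [Field K] {n : ℕ} (C C' : Set (Matrix (Fin n) (Fin n) K)) : Prop :=
  ∃ (A B : Matrix (Fin n) (Fin n) K) (σ : K ≃+* K), IsUnit A ∧ IsUnit B ∧
    (C' = (fun X => A * X.map σ * B) '' C ∨ C' = (fun X => A * (X.map σ)ᵀ * B) '' C)

/-- The field spread set: the matrices of the multiplications by the elements of `L` with respect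
to the basis `b`. -/
def fieldSpread {K : Type} [Field K] {n : ℕ} {L : Type} [Field L] [Algebra K L]
    (b : Basis (Fin n) K L) : Set (Matrix (Fin n) (Fin n) K) :=
  Set.range (fun a : L => Algebra.leftMulMatrix b a)

/-! ### Scalar multiples -/

/-- A code which is equivalent to a field spread set contains an invertible matrix together with
its scalar multiples. -/
lemma exists_unit {K : Type} [Field K] {n : ℕ} {L : Type} [Field L] [Algebra K L]
    (b : Basis (Fin n) K L) {S : Set (Matrix (Fin n) (Fin n) K)}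
    (hS : EquivalentCodes (fieldSpread b) S) : ∃ X, IsUnit X ∧ ∀ k : K, k • X ∈ S := by
  obtain ⟨A, B, σ, hA, hB, h⟩ := hS
  refine ⟨A * B, hA.mul hB, fun k => ?_⟩
  have h1 : Algebra.leftMulMatrix b (algebraMap K L (σ.symm k)) =
      (σ.symm k) • (1 : Matrix (Fin n) (Fin n) K) := by
    rw [AlgHom.commutes, Algebra.algebraMap_eq_smul_one]
  have h2 : ((σ.symm k) • (1 : Matrix (Fin n) (Fin n) K)).map σ = k • 1 := by
    ext i j
    by_cases hij : i = j
    · subst hij; simp
    · simp [hij]
  rcases h with h | h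
  · rw [h]
    refine ⟨_, ⟨algebraMap K L (σ.symm k), rfl⟩, ?_⟩
    simp only
    rw [h1, h2]
    simp
  · rw [h]
    refine ⟨_, ⟨algebraMap K L (σ.symm k), rfl⟩, ?_⟩
    simp only
    rw [h1, h2]
    simp

/-! ### The code -/

section code

variable {K : Type} [Field K] {L : Type} [Field L] [Algebra K L]

/-- The matrix with three given rows. -/
noncomputable def rows (b : Basis (Fin 3) K L) (x y z : L) : Matrix (Fin 3) (Fin 3) K :=
  Matrix.of ![b.equivFun x, b.equivFun y, b.equivFun z]

lemma rows_zero (b : Basis (Fin 3) K L) (x y z : L) : rows b x y z 0 = b.equivFun x := rfl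
lemma rows_one (b : Basis (Fin 3) K L) (x y z : L) : rows b x y z 1 = b.equivFun y := rfl
lemma rows_two (b : Basis (Fin 3) K L) (x y z : L) : rows b x y z 2 = b.equivFun z := rfl

lemma rows_inj (b : Basis (Fin 3) K L) {x y z x' y' z' : L}
    (h : rows b x y z = rows b x' y' z') : x = x' ∧ y = y' ∧ z = z' := by
  refine ⟨b.equivFun.injective ?_, b.equivFun.injective ?_, b.equivFun.injective ?_⟩
  · rw [← rows_zero b x y z, h, rows_zero]
  · rw [← rows_one b x y z, h, rows_one]
  · rw [← rows_two b x y z, h, rows_two]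

lemma rows_smul (b : Basis (Fin 3) K L) (k : K) (x y z : L) :
    k • rows b x y z = rows b (k • x) (k • y) (k • z) := by
  ext i j
  fin_cases i
  · show k • (b.equivFun x j) = b.equivFun (k • x) j
    rw [map_smul]; rfl
  · show k • (b.equivFun y j) = b.equivFun (k • y) j
    rw [map_smul]; rfl
  · show k • (b.equivFun z j) = b.equivFun (k • z) j
    rw [map_smul]; rfl

lemma rows_sub (b : Basis (Fin 3) K L) (x y z x' y' z' : L) :
    rows b x y z - rows b x' y' z' = rows b (x - x') (y - y') (z - z') := by
  ext i j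
  fin_cases i
  · show b.equivFun x j - b.equivFun x' j = b.equivFun (x - x') j
    rw [map_sub]; rfl
  · show b.equivFun y j - b.equivFun y' j = b.equivFun (y - y') j
    rw [map_sub]; rfl
  · show b.equivFun z j - b.equivFun z' j = b.equivFun (z - z') j
    rw [map_sub]; rfl

/-- Two independent rows give rank at least two. -/
lemma two_le_rank {M : Matrix (Fin 3) (Fin 3) K} {i j : Fin 3}
    (h : LinearIndependent K ![M i, M j]) : 2 ≤ M.rank := by
  rw [Matrix.rank_eq_finrank_span_row]
  have hmem : ∀ k, M k ∈ Submodule.span K (Set.range M.row) :=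
    fun k => Submodule.subset_span ⟨k, rfl⟩
  have h2 : LinearIndependent K (![⟨M i, hmem i⟩, ⟨M j, hmem j⟩] :
      Fin 2 → Submodule.span K (Set.range M.row)) := by
    apply LinearIndependent.of_comp (Submodule.subtype _)
    have : (⇑(Submodule.subtype (Submodule.span K (Set.range M.row))) ∘
        (![⟨M i, hmem i⟩, ⟨M j, hmem j⟩] : Fin 2 → Submodule.span K (Set.range M.row))) =
        ![M i, M j] := by
      funext k
      fin_cases k <;> rfl
    rw [this]
    exact h
  simpa using h2.fintype_card_le_finrank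

lemma indep_of {b : Basis (Fin 3) K L} {x y : L} (hx : x ≠ 0)
    (h : ∀ k : K, y ≠ k • x) : LinearIndependent K ![b.equivFun x, b.equivFun y] := by
  rw [LinearIndependent.pair_iff' (by simpa using hx)]
  intro k hk
  apply h k
  apply b.equivFun.injective
  rw [map_smul, hk]

/-- A matrix of rank three is invertible: a matrix with a zero row has rank at most two. -/
lemma rank_le_two {M : Matrix (Fin 3) (Fin 3) K} (h : M 1 = 0) : M.rank ≤ 2 := by
  rw [Matrix.rank_eq_finrank_span_row]
  have h1 : Submodule.span K (Set.range M.row) ≤ Submodule.span K {M 0, M 2} := by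
    rw [Submodule.span_le]
    rintro _ ⟨i, rfl⟩
    fin_cases i
    · exact Submodule.subset_span (by simp [Matrix.row])
    · show M 1 ∈ _
      rw [h]; exact Submodule.zero_mem _
    · exact Submodule.subset_span (by simp [Matrix.row])
  have h2 : finrank K (Submodule.span K ({M 0, M 2} : Set (Fin 3 → K))) ≤ 2 := by
    classical
    have := finrank_span_finset_le_card (R := K) ({M 0, M 2} : Finset (Fin 3 → K))
    have h3 : ({M 0, M 2} : Finset (Fin 3 → K)).card ≤ 2 := Finset.card_le_two
    rw [Finset.coe_pair, Set.finrank] at this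
    omega
  exact (Submodule.finrank_mono h1).trans h2

end code

/-! ### The choice of `c` -/

lemma exists_c {K L : Type} [Field K] [Finite K] [Field L] [Finite L] [Algebra K L] {q : ℕ}
    (hq : 2 ≤ q) (hK : Nat.card K = q ^ 2) (hL : Nat.card L = q ^ 6) (α : L) :
    ∃ c : L, c ≠ 0 ∧ ∀ s : L, s ≠ 0 → ∀ x y : K,
      c * s ^ (q ^ 3 - 1) ≠ algebraMap K L x + algebraMap K L y * α := by
  classical
  have := Fintype.ofFinite K
  have := Fintype.ofFinite L
  obtain ⟨t, rfl⟩ : ∃ t, q = t + 1 := ⟨q - 1, by omega⟩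
  have ht : 1 ≤ t := by omega
  set m : ℕ := t * ((t + 1) ^ 3 + 1) with hm
  set T : Finset L := insert 1 (Finset.univ.image (fun a : K => (α + algebraMap K L a) ^ m))
    with hT
  have hTc : T.card ≤ (t + 1) ^ 2 + 1 := by
    refine (Finset.card_insert_le _ _).trans ?_
    have := Finset.card_image_le (s := (Finset.univ : Finset K))
      (f := fun a : K => (α + algebraMap K L a) ^ m)
    rw [Finset.card_univ, Fintype.card_eq_nat_card, hK] at this
    omega
  obtain ⟨c, hc0, hc⟩ : ∃ c : L, c ≠ 0 ∧ c ^ m ∉ T := by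
    by_contra hcon
    push Not at hcon
    have h1 := Finset.card_le_mul_card_image_of_maps_to
      (s := (Finset.univ : Finset L).erase 0) (t := T) (f := fun c : L => c ^ m)
      (fun a ha => hcon a (Finset.ne_of_mem_erase ha)) m (by
        intro b _
        have hmpos : 0 < m := by positivity
        have hsub : ((Finset.univ : Finset L).erase 0).filter (fun a => a ^ m = b) ⊆
            (Polynomial.nthRoots m b).toFinset := by
          intro a ha
          rw [Multiset.mem_toFinset, Polynomial.mem_nthRoots hmpos]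
          exact (Finset.mem_filter.mp ha).2
        exact (Finset.card_le_card hsub).trans
          ((Multiset.toFinset_card_le _).trans (Polynomial.card_nthRoots m b)))
    rw [Finset.card_erase_of_mem (Finset.mem_univ _), Finset.card_univ,
      Fintype.card_eq_nat_card, hL] at h1
    have h2 : (t + 1) ^ 6 = m * ((t + 1) ^ 2 + (t + 1) + 1) + 1 := by rw [hm]; ring
    have h3 : m * T.card ≤ m * ((t + 1) ^ 2 + 1) := Nat.mul_le_mul_left _ hTc
    have h4 : 0 < m * (t + 1) := by positivity
    have h5 : m * ((t + 1) ^ 2 + (t + 1) + 1) = m * ((t + 1) ^ 2 + 1) + m * (t + 1) := by ring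
    omega
  refine ⟨c, hc0, ?_⟩
  intro s hs x y heq
  -- the multiplicative group
  have hLpow : ∀ z : L, z ≠ 0 → z ^ ((t + 1) ^ 6 - 1) = 1 := by
    intro z hz
    have := FiniteField.pow_card_sub_one_eq_one z hz
    rwa [Fintype.card_eq_nat_card, hL] at this
  have hKpow : ∀ z : K, z ≠ 0 → (algebraMap K L z) ^ m = 1 := by
    intro z hz
    have h1 := FiniteField.pow_card_sub_one_eq_one z hz
    rw [Fintype.card_eq_nat_card, hK] at h1
    have h2 : m = ((t + 1) ^ 2 - 1) * ((t + 1) ^ 2 - (t + 1) + 1) := by
      have e1 : (t + 1) ^ 2 - 1 = t * (t + 2) := by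
        have : (t + 1) ^ 2 = t * (t + 2) + 1 := by ring
        omega
      have e2 : (t + 1) ^ 2 - (t + 1) = t * (t + 1) := by
        have : (t + 1) ^ 2 = t * (t + 1) + (t + 1) := by ring
        omega
      rw [e1, e2, hm]; ring
    rw [h2, ← map_pow, pow_mul, h1, one_pow, map_one]
  have hspow : (s ^ ((t + 1) ^ 3 - 1)) ^ m = 1 := by
    have e1 : (t + 1) ^ 6 - 1 = ((t + 1) ^ 3 - 1) * ((t + 1) ^ 3 + 1) := by
      have h1 : 1 ≤ (t + 1) ^ 3 := Nat.one_le_pow _ _ (by omega)
      obtain ⟨w, hw⟩ : ∃ w, (t + 1) ^ 3 = w + 1 := ⟨(t + 1) ^ 3 - 1, by omega⟩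
      have h2 : (t + 1) ^ 6 = (w + 1) ^ 2 := by rw [← hw]; ring
      rw [h2, hw]
      have : (w + 1) ^ 2 = w * (w + 1 + 1) + 1 := by ring
      rw [Nat.add_sub_cancel]
      omega
    rw [← pow_mul, hm, show ((t + 1) ^ 3 - 1) * (t * ((t + 1) ^ 3 + 1)) =
      ((t + 1) ^ 3 - 1) * ((t + 1) ^ 3 + 1) * t by ring, ← e1, pow_mul, hLpow s hs, one_pow]
  have hcm : c ^ m = (algebraMap K L x + algebraMap K L y * α) ^ m := by
    rw [← heq, mul_pow, hspow, mul_one]
  apply hc
  rw [hcm]
  by_cases hy : y = 0
  · subst hy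
    have hx : x ≠ 0 := by
      rintro rfl
      rw [map_zero, zero_mul, add_zero] at heq
      exact mul_ne_zero hc0 (pow_ne_zero _ hs) heq
    rw [map_zero, zero_mul, add_zero, hKpow x hx]
    exact Finset.mem_insert_self _ _
  · have h1 : algebraMap K L x + algebraMap K L y * α =
        algebraMap K L y * (α + algebraMap K L (x / y)) := by
      rw [map_div₀]
      have : algebraMap K L y ≠ 0 := by simpa using hy
      field_simp
      ring
    rw [h1, mul_pow, hKpow y hy, one_mul]
    exact Finset.mem_insert_of_mem (Finset.mem_image_of_mem _ (Finset.mem_univ _))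

/-! ### The theorem -/

/-- **Additive MRD codes without field spread sets.** Let `K` be a finite field whose order is a
square. There is an additive MRD code `C` in `M_3(K)` with minimum distance `2` such that
(1) no code equivalent to the field spread set of a cubic field extension of `K` is contained in
`C`; in fact (2) every matrix `X` such that all scalar multiples of `X` belong to `C` is singular. -/
theorem result (K : Type) [Field K] [Finite K] (q₀ : ℕ) (hq₀ : Nat.card K = q₀ ^ 2) :
    ∃ C : AddSubgroup (Matrix (Fin 3) (Fin 3) K),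
      IsMRD (C : Set (Matrix (Fin 3) (Fin 3) K)) 2 ∧
      (∀ (L : Type) [Field L] [Algebra K L] (b : Basis (Fin 3) K L)
        (S : Set (Matrix (Fin 3) (Fin 3) K)), EquivalentCodes (fieldSpread b) S →
          ¬ S ⊆ (C : Set (Matrix (Fin 3) (Fin 3) K))) ∧
      ∀ X : Matrix (Fin 3) (Fin 3) K, (∀ k : K, k • X ∈ C) → ¬ IsUnit X := by
  classical
  obtain ⟨p, hpK⟩ := CharP.exists K
  have hp : p.Prime := CharP.char_is_prime K p
  have : Fact p.Prime := ⟨hp⟩
  have := Fintype.ofFinite K
  have : NeZero 3 := ⟨by norm_num⟩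
  let L := FiniteField.Extension K p 3
  have hfin : finrank K L = 3 := FiniteField.finrank_extension K p 3
  let b : Basis (Fin 3) K L := finBasisOfFinrankEq K L hfin
  have hLcard : Nat.card L = q₀ ^ 6 := by
    have : Nat.card L = Nat.card K ^ 3 := FiniteField.natCard_extension K p 3
    rw [this, hq₀, ← pow_mul]
  -- `q₀` is a power of `p`
  have hq1 : 2 ≤ q₀ := by
    have h1 : 1 < Nat.card K := Finite.one_lt_card
    rw [hq₀] at h1
    by_contra hc
    push Not at hc
    interval_cases q₀ <;> simp at h1
  obtain ⟨e, -, he⟩ := FiniteField.card K p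
  obtain ⟨f, -, hf⟩ : ∃ f ≤ (e : ℕ), q₀ = p ^ f := by
    rw [← Nat.dvd_prime_pow hp, ← he, Fintype.card_eq_nat_card, hq₀]
    exact Dvd.intro_left (q₀ ^ 1) (by ring)
  -- an element which is not fixed by the power `q₀`
  obtain ⟨ω, hω⟩ : ∃ ω : K, ω ^ q₀ ≠ ω := by
    by_contra hcon
    push Not at hcon
    have h1 : (Polynomial.X ^ q₀ - Polynomial.X : Polynomial K) ≠ 0 :=
      FiniteField.X_pow_card_sub_X_ne_zero K (by omega)
    have h2 : (Polynomial.X ^ q₀ - Polynomial.X : Polynomial K).natDegree = q₀ :=
      FiniteField.X_pow_card_sub_X_natDegree_eq K (by omega)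
    have h3 : (Finset.univ : Finset K) ⊆
        (Polynomial.X ^ q₀ - Polynomial.X : Polynomial K).roots.toFinset := by
      intro a _
      rw [Multiset.mem_toFinset, Polynomial.mem_roots h1]
      simp [hcon a]
    have h4 := (Finset.card_le_card h3).trans ((Multiset.toFinset_card_le _).trans
      (Polynomial.card_roots' _))
    rw [h2, Finset.card_univ, Fintype.card_eq_nat_card, hq₀] at h4
    nlinarith
  -- an element outside `K`
  obtain ⟨α, hα⟩ : ∃ α : L, ∀ k : K, algebraMap K L k ≠ α := by
    by_contra hcon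
    push Not at hcon
    have h1 : Function.Surjective (algebraMap K L) := hcon
    have h2 := Nat.card_le_card_of_surjective _ h1
    rw [hLcard, hq₀] at h2
    have : q₀ ^ 2 < q₀ ^ 6 := Nat.pow_lt_pow_right (by omega) (by norm_num)
    omega
  obtain ⟨c, hc0, hc⟩ := exists_c (K := K) (L := L) hq1 hq₀ hLcard α
  set Q : ℕ := q₀ ^ 3 with hQ
  have hQp : Q = p ^ (f * 3) := by rw [hQ, hf, ← pow_mul]
  have hQ1 : 1 ≤ Q := Nat.one_le_pow _ _ (by omega)
  have : CharP L p := charP_of_injective_algebraMap (algebraMap K L).injective p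
  have hadd : ∀ x y : L, (x + y) ^ Q = x ^ Q + y ^ Q := by
    intro x y
    rw [hQp]
    exact add_pow_char_pow x y p (f * 3)
  -- the code
  let φ : L × L →+ Matrix (Fin 3) (Fin 3) K :=
    AddMonoidHom.mk' (fun z => rows b z.1 z.2 (α * z.1 + c * z.2 ^ Q)) (by
      rintro ⟨x, y⟩ ⟨x', y'⟩
      have h1 := rows_sub b (x + x') (y + y') (α * (x + x') + c * (y + y') ^ Q) x' y'
        (α * x' + c * y' ^ Q)
      simp only [Prod.mk_add_mk]
      rw [sub_eq_iff_eq_add] at h1
      rw [h1]
      congr 2
      · ring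
      · ring
      · rw [hadd]; ring)
  have hφ : ∀ x y, φ (x, y) = rows b x y (α * x + c * y ^ Q) := fun x y => rfl
  have hφinj : Function.Injective φ := by
    rintro ⟨x, y⟩ ⟨x', y'⟩ h
    rw [hφ, hφ] at h
    obtain ⟨h1, h2, -⟩ := rows_inj b h
    rw [h1, h2]
  have hφrank : ∀ z, z ≠ 0 → 2 ≤ (φ z).rank := by
    rintro ⟨x, y⟩ hz
    rw [hφ]
    by_cases hy : y = 0
    · subst hy
      have hx : x ≠ 0 := by
        rintro rfl
        exact hz rfl
      apply two_le_rank (i := 0) (j := 2)
      rw [rows_zero, rows_two]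
      apply indep_of hx
      intro k hk
      rw [zero_pow (by omega), mul_zero, add_zero, Algebra.smul_def] at hk
      exact hα k (mul_right_cancel₀ hx hk.symm)
    · by_cases hxy : ∃ k : K, x = k • y
      · obtain ⟨k, rfl⟩ := hxy
        apply two_le_rank (i := 1) (j := 2)
        rw [rows_one, rows_two]
        apply indep_of hy
        intro l hl
        rw [Algebra.smul_def, Algebra.smul_def] at hl
        apply hc y hy l (-k)
        apply mul_right_cancel₀ hy
        rw [mul_assoc, ← pow_succ, Nat.sub_add_cancel hQ1, map_neg]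
        linear_combination hl
      · push Not at hxy
        apply two_le_rank (i := 1) (j := 0)
        rw [rows_one, rows_zero]
        exact indep_of hy hxy
  -- the scalar multiples
  have hscal : ∀ X : Matrix (Fin 3) (Fin 3) K, (∀ k : K, k • X ∈ φ.range) → ¬ IsUnit X := by
    intro X hX hunit
    obtain ⟨⟨x, y⟩, h1⟩ := hX 1
    obtain ⟨⟨x', y'⟩, h2⟩ := hX ω
    rw [one_smul] at h1
    rw [← h1, hφ, hφ, rows_smul] at h2
    obtain ⟨e1, e2, e3⟩ := rows_inj b h2
    rw [e1, e2, Algebra.smul_def, Algebra.smul_def, Algebra.smul_def, mul_pow] at e3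
    have h3 : (algebraMap K L ω) ^ Q = algebraMap K L (ω ^ q₀) := by
      have h4 : ω ^ (q₀ ^ 2) = ω := by
        have := FiniteField.pow_card ω
        rwa [Fintype.card_eq_nat_card, hq₀] at this
      rw [← map_pow, hQ, show q₀ ^ 3 = q₀ ^ 2 * q₀ by ring, pow_mul, h4]
    rw [h3] at e3
    have h5 : c * (algebraMap K L (ω ^ q₀) - algebraMap K L ω) * y ^ Q = 0 := by
      linear_combination e3
    have h6 : algebraMap K L (ω ^ q₀) - algebraMap K L ω ≠ 0 := fun h =>
      hω ((algebraMap K L).injective (sub_eq_zero.mp h))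
    have h7 : y = 0 := by
      rcases mul_eq_zero.mp h5 with h | h
      · exact absurd h (mul_ne_zero hc0 h6)
      · exact pow_eq_zero_iff (by omega) |>.mp h
    have hdet : X.det = 0 := by
      apply Matrix.det_eq_zero_of_row_eq_zero 1
      intro j
      rw [← h1, hφ, h7]
      show b.equivFun (0 : L) j = 0
      simp
    rw [Matrix.isUnit_iff_isUnit_det, hdet] at hunit
    exact not_isUnit_zero hunit
  refine ⟨φ.range, ⟨⟨?_, ?_⟩, ?_⟩, ?_, hscal⟩
  · rintro _ ⟨z, rfl⟩ _ ⟨z', rfl⟩ hne
    rw [← map_sub]
    apply hφrank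
    intro h
    apply hne
    rw [sub_eq_zero.mp h]
  · have h1 : φ (1, 0) ≠ φ 0 := fun h => by
      have := hφinj h
      simp at this
    refine ⟨φ (1, 0), ⟨_, rfl⟩, φ 0, ⟨_, rfl⟩, h1, ?_⟩
    rw [map_zero, sub_zero]
    apply le_antisymm
    · apply rank_le_two
      rw [hφ, rows_one]
      simp
    · apply hφrank
      simp
  · have h1 : (φ.range : Set (Matrix (Fin 3) (Fin 3) K)) = Set.range φ := by
      ext; simp
    rw [h1, ← Set.image_univ, Set.ncard_image_of_injective _ hφinj, Set.ncard_univ,
      Nat.card_prod, hLcard, hq₀]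
    norm_num [← pow_mul, ← pow_add]
  · intro L' _ _ b' S hS hsub
    obtain ⟨X, hXu, hX⟩ := exists_unit b' hS
    exact hscal X (fun k => hsub (hX k)) hXu

end Pool.Agent.Results.MP_bf8bcd_co.NoFieldSpreadSet
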